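import Pool.Agent.H14.NS.Single

/-!
From a bounded potential on the free group of rank `m + 1` to every free group (MP_2822c4_an, row GEN).
-/

set_option autoImplicit false

open scoped ENNReal NNReal
open scoped Classical

namespace Pool.Agent.H14.FG

open Pool.Agent.H14.NS

/-- a bounded potential, not the same at `1` and at the inverse of a generator -/
def T_POT : Prop := ∀ (m : ℕ) (b : Fin m → FreeGroup (Fin (m + 1)) →₀ ℂ),
  (∀ i, ∑ y ∈ (b i).support, b i y = 0) →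
  ∃ (P : FreeGroup (Fin (m + 1)) → ℂ) (B : ℝ) (k : Fin (m + 1)), 0 < B ∧ (∀ x, ‖P x‖ ≤ B) ∧
    P 1 ≠ P (FreeGroup.of k)⁻¹ ∧ ∀ i x, ∑ y ∈ (b i).support, b i y * P (x * y⁻¹) = 0

lemma hasSum_conv_pair {G : Type*} [Group G] {c : G → ℂ} (hc : Summable c) (P : G → ℂ) (B : ℝ)
    (hP : ∀ x, ‖P x‖ ≤ B) (y : G) :
    HasSum (fun x => c (y⁻¹ * x) * P x⁻¹) (∑' z, c z * P (z⁻¹ * y⁻¹)) := by
  have hs : Summable (fun z => c z * P (z⁻¹ * y⁻¹)) := by
    refine Summable.of_norm_bounded (g := fun z => ‖c z‖ * B) (hc.norm.mul_right B) fun z => ?_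
    rw [norm_mul]
    exact mul_le_mul_of_nonneg_left (hP _) (norm_nonneg _)
  have h1 := (Equiv.mulLeft y⁻¹).hasSum_iff.2 hs.hasSum
  refine h1.congr_fun fun x => ?_
  show c (y⁻¹ * x) * P x⁻¹ = c (y⁻¹ * x) * P ((y⁻¹ * x)⁻¹ * y⁻¹)
  congr 2
  group

/-- the element `e - a` of the group algebra -/
noncomputable def dl {G : Type*} [Group G] (a x : G) : ℂ :=
  Set.indicator {1} 1 x - Set.indicator {a} 1 x

lemma dl_hasSum {G : Type*} [Group G] (a : G) (f : G → ℂ) :
    HasSum (fun x => dl a x * f x) (f 1 - f a) := by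
  refine (delt_hasSum a f).congr_fun fun x => ?_
  congr 1

/-- the pairing in any group -/
theorem pair_group {G : Type*} [Group G] {m : ℕ} (b : Fin m → G →₀ ℂ) (P : G → ℂ) (B : ℝ) (a : G)
    (hB : 0 < B) (hP : ∀ x, ‖P x‖ ≤ B)
    (hb : ∀ i x, ∑ y ∈ (b i).support, b i y * P (x * y⁻¹) = 0)
    (c : Fin m → G → ℂ) (hc : ∀ i, Summable (c i)) :
    ‖P 1 - P a⁻¹‖ / B ≤ ∑' x, ‖dl a x - ∑ i, ∑' y, b i y * c i (y⁻¹ * x)‖ := by
  have hconv : ∀ i x, ∑' y, b i y * c i (y⁻¹ * x) = ∑ y ∈ (b i).support, b i y * c i (y⁻¹ * x) := by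
    intro i x
    refine tsum_eq_sum fun y hy => ?_
    rw [Finsupp.notMem_support_iff.1 hy, zero_mul]
  have hzero : ∀ i, HasSum (fun x => (∑ y ∈ (b i).support, b i y * c i (y⁻¹ * x)) * P x⁻¹) 0 := by
    intro i
    have h1 : ∀ y ∈ (b i).support, HasSum (fun x => b i y * (c i (y⁻¹ * x) * P x⁻¹))
        (b i y * ∑' z, c i z * P (z⁻¹ * y⁻¹)) := fun y _ =>
      (hasSum_conv_pair (hc i) P B hP y).mul_left _
    have h2 := hasSum_sum h1
    have hs : ∀ y ∈ (b i).support, Summable (fun z => b i y * (c i z * P (z⁻¹ * y⁻¹))) := by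
      intro y _
      refine Summable.mul_left _ ?_
      refine Summable.of_norm_bounded (g := fun z => ‖c i z‖ * B) ((hc i).norm.mul_right B)
        fun z => ?_
      rw [norm_mul]
      exact mul_le_mul_of_nonneg_left (hP _) (norm_nonneg _)
    have h3 : ∑ y ∈ (b i).support, b i y * ∑' z, c i z * P (z⁻¹ * y⁻¹) = 0 := by
      have h4 : ∑ y ∈ (b i).support, b i y * ∑' z, c i z * P (z⁻¹ * y⁻¹) =
          ∑ y ∈ (b i).support, ∑' z, b i y * (c i z * P (z⁻¹ * y⁻¹)) :=
        Finset.sum_congr rfl fun y _ => tsum_mul_left.symm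
      rw [h4, ← Summable.tsum_finsetSum hs]
      have h5 : ∀ z, ∑ y ∈ (b i).support, b i y * (c i z * P (z⁻¹ * y⁻¹)) = 0 := by
        intro z
        have h6 := hb i z⁻¹
        calc ∑ y ∈ (b i).support, b i y * (c i z * P (z⁻¹ * y⁻¹)) =
            c i z * ∑ y ∈ (b i).support, b i y * P (z⁻¹ * y⁻¹) := by
              rw [Finset.mul_sum]
              exact Finset.sum_congr rfl fun y _ => by ring
          _ = 0 := by rw [h6, mul_zero]
      simp only [h5, tsum_zero]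
    rw [h3] at h2
    refine h2.congr_fun fun x => ?_
    rw [Finset.sum_mul]
    exact Finset.sum_congr rfl fun y _ => by ring
  have hd : HasSum (fun x => dl a x * P x⁻¹) (P 1 - P a⁻¹) := by
    have h1 := dl_hasSum a (fun x : G => P x⁻¹)
    rwa [inv_one] at h1
  obtain ⟨f, hf⟩ : ∃ f : G → ℂ, f = fun x => dl a x - ∑ i, ∑' y, b i y * c i (y⁻¹ * x) := ⟨_, rfl⟩
  have hfs : HasSum (fun x => f x * P x⁻¹) (P 1 - P a⁻¹) := by
    have h1 := hd.sub (hasSum_sum fun i (_ : i ∈ (Finset.univ : Finset (Fin m))) => hzero i)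
    rw [Finset.sum_const_zero, sub_zero] at h1
    refine h1.congr_fun fun x => ?_
    rw [hf]
    simp only [hconv]
    rw [sub_mul, Finset.sum_mul]
  have hfn : Summable (fun x => ‖f x‖) := by
    rw [hf]
    refine Summable.norm ?_
    refine Summable.sub ?_ ?_
    · have h1 := (dl_hasSum a (fun _ : G => (1 : ℂ))).summable
      simpa using h1
    · refine summable_sum fun i _ => ?_
      simp only [hconv]
      refine summable_sum fun y _ => ?_
      exact ((Equiv.mulLeft y⁻¹).summable_iff.2 (hc i)).mul_left _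
  have h1 : ‖P 1 - P a⁻¹‖ ≤ ∑' x, ‖f x‖ * B := by
    rw [← hfs.tsum_eq]
    refine tsum_of_norm_bounded (hfn.mul_right B).hasSum fun x => ?_
    rw [norm_mul]
    exact mul_le_mul_of_nonneg_left (hP _) (norm_nonneg _)
  rw [tsum_mul_right] at h1
  rw [div_le_iff₀ hB]
  rw [hf] at h1
  exact h1

/-- sums over the support of an image -/
lemma mapDomain_pair {G G' : Type*} (π : G → G') (b : G →₀ ℂ) (Φ : G' → ℂ) :
    ∑ y ∈ (b.mapDomain π).support, b.mapDomain π y * Φ y = ∑ y ∈ b.support, b y * Φ (π y) := by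
  have h1 : (b.mapDomain π).sum (fun y r => r * Φ y) = b.sum fun y r => r * Φ (π y) :=
    Finsupp.sum_mapDomain_index (fun _ => zero_mul _) (fun _ _ _ => add_mul _ _ _)
  exact h1

/-- every free group -/
theorem gen (hPOT : T_POT) {ι : Type*} {m : ℕ} (a : Fin (m + 1) → ι) (ha : Function.Injective a)
    (b : Fin m → FreeGroup ι →₀ ℂ) (hb : ∀ i, ∑ y ∈ (b i).support, b i y = 0) :
    ∃ (k : Fin (m + 1)) (δ : ℝ), 0 < δ ∧ ∀ c : Fin m → FreeGroup ι → ℂ, (∀ i, Summable (c i)) →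
      δ ≤ ∑' x, ‖dl (FreeGroup.of (a k)) x - ∑ i, ∑' y, b i y * c i (y⁻¹ * x)‖ := by
  -- kill the other letters
  obtain ⟨π, hπ⟩ : ∃ π : FreeGroup ι →* FreeGroup (Fin (m + 1)), ∀ k, π (FreeGroup.of (a k)) =
      FreeGroup.of k := by
    refine ⟨FreeGroup.lift fun i => if h : ∃ k, a k = i then FreeGroup.of h.choose else 1, ?_⟩
    intro k
    rw [FreeGroup.lift_apply_of]
    have h : ∃ k', a k' = a k := ⟨k, rfl⟩
    rw [dif_pos h]
    congr 1
    exact ha h.choose_spec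
  obtain ⟨P, B, k, hB, hP, hne, hz⟩ := hPOT m (fun i => (b i).mapDomain π) (fun i => by
    have h1 := mapDomain_pair (π : FreeGroup ι → FreeGroup (Fin (m + 1))) (b i) (fun _ => 1)
    simp only [mul_one] at h1
    rw [h1]
    exact hb i)
  refine ⟨k, ‖P 1 - P (FreeGroup.of k)⁻¹‖ / B, div_pos (norm_pos_iff.2 (sub_ne_zero.2 hne)) hB, ?_⟩
  intro c hc
  have h1 := pair_group b (fun x => P (π x)) B (FreeGroup.of (a k)) hB (fun x => hP _) (by
    intro i x
    have h2 := hz i (π x)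
    rw [mapDomain_pair (π : FreeGroup ι → FreeGroup (Fin (m + 1))) (b i)
      (fun y => P (π x * y⁻¹))] at h2
    simpa only [map_mul, map_inv] using h2) c hc
  simpa only [map_one, map_inv, hπ] using h1

end Pool.Agent.H14.FG
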